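import Pool.Agent.N843.TT.Dens

/-!
# The twists and the next field
-/

set_option autoImplicit false
set_option linter.unusedSectionVars false

open scoped Classical

namespace Pool.Agent.N843.TT

open NumberField IsDedekindDomain Filter
open Pool.Agent.Results.MP_cd906c_nt.MultiquadraticX49 (curve InClass NoSelmer AllNoSelmer
  Independent)

section

variable {K : Type} [Field K] [NumberField K] {a : 𝓞 K}

/-- the units of the class -/
theorem unit_one (ha : a ^ 2 = a - 2) (hK : Module.finrank ℚ K = 2) {u : 𝓞 K} (h : InClass a u)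
    (hu : IsUnit u) : u = 1 := by
  obtain ⟨e, hea, hef⟩ := Pool.Agent.Results.MP_e996df_nt.TwoPartTwistsX49.exists_e ha hK
  have h1 := cls_symm e hef h
  have h2 : IsUnit (e.symm u) := hu.map e.symm
  have h3 : e.symm u = 1 := by
    refine Pool.Agent.R426.QM.Cls.eq_of_PD h1 Pool.Agent.R426.QM.Cls.cls_one ?_
    ext π
    rw [Pool.Agent.R426.QK.mem_PD h1.1.ne_zero, Pool.Agent.R426.QK.mem_PD one_ne_zero]
    refine and_congr_right fun hπ => ⟨fun h => ?_, fun h => h.trans (one_dvd _)⟩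
    exact h.trans h2.dvd
  rw [← e.apply_symm_apply u, h3, map_one]

/-- `D` is good for the tuple `d` -/
def GoodT {K : Type} [Field K] [NumberField K] (a : 𝓞 K) {n : ℕ} (d : Fin n → 𝓞 K) (D : 𝓞 K) :
    Prop :=
  InClass a D ∧ (∀ i, IsCoprime D (d i)) ∧ AllNoSelmer a d D

/-- the data of the products -/
structure Cls {K : Type} [Field K] [NumberField K] (a : 𝓞 K) {n : ℕ} (d : Fin n → 𝓞 K)
    (N : Finset (Fin n) → 𝓞 K) : Prop where
  cl : ∀ T, InClass a (N T)
  inj : Function.Injective N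
  emp : N ∅ = 1
  sing : ∀ i, N {i} = d i
  pr : ∀ T, ∃ c : 𝓞 K, c ≠ 0 ∧ ∏ i ∈ T, d i = N T * c ^ 2
  cop : ∀ D : 𝓞 K, InClass a D → (∀ i, IsCoprime D (d i)) → ∀ T, IsCoprime D (N T)

theorem exists_cls (ha : a ^ 2 = a - 2) (hK : Module.finrank ℚ K = 2) {n : ℕ} {d : Fin n → 𝓞 K}
    (hd : ∀ i, InClass a (d i)) (hind : Independent d) : ∃ N, Cls a d N := by
  obtain ⟨N, h1, h2, h3, h4, h5, h6⟩ := clsK ha hK d hd hind
  exact ⟨N, h1, h2, h3, h4, h5, h6⟩

variable {n : ℕ} {d : Fin n → 𝓞 K} {N : Finset (Fin n) → 𝓞 K}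

lemma Cls.mul (hN : Cls a d N) (ha : a ^ 2 = a - 2) (hK : Module.finrank ℚ K = 2) {D : 𝓞 K}
    (hD : InClass a D) (hc : ∀ i, IsCoprime D (d i)) (T : Finset (Fin n)) :
    InClass a (D * N T) := mulK ha hK hD (hN.cl T) (hN.cop D hD hc T)

/-- the good elements -/
theorem Cls.good_iff (hN : Cls a d N) (ha : a ^ 2 = a - 2) (hK : Module.finrank ℚ K = 2) {D : 𝓞 K}
    (hD : InClass a D) (hc : ∀ i, IsCoprime D (d i)) :
    AllNoSelmer a d D ↔ ∀ T, NoSelmer (curve ((D * N T : 𝓞 K) : K)) := by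
  constructor
  · intro h T
    obtain ⟨c, hc0, h1⟩ := hN.pr T
    exact h T _ c (hN.mul ha hK hD hc T) hc0 (by rw [h1]; ring)
  · intro h T N' c' hN' hc' h1
    obtain ⟨c, hc0, h2⟩ := hN.pr T
    have h3 : N' = D * N T := uniqK ha hK hN' (hN.mul ha hK hD hc T) hc' hc0 (by
      rw [← h1, h2]
      ring)
    rw [h3]
    exact h T

/-- the products of a longer tuple -/
lemma prod_snoc (d : Fin n → 𝓞 K) (e : 𝓞 K) (S : Finset (Fin (n + 1))) :
    ∏ i ∈ S, (Fin.snoc d e : Fin (n + 1) → 𝓞 K) i =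
      (∏ i ∈ Finset.univ.filter (fun i : Fin n => i.castSucc ∈ S), d i) *
        if Fin.last n ∈ S then e else 1 := by
  have h1 : ∏ i ∈ S, (Fin.snoc d e : Fin (n + 1) → 𝓞 K) i =
      ∏ i : Fin (n + 1), if i ∈ S then (Fin.snoc d e : Fin (n + 1) → 𝓞 K) i else 1 := by
    rw [Finset.prod_ite_mem, Finset.univ_inter]
  rw [h1, Fin.prod_univ_castSucc, Finset.prod_filter, Fin.snoc_last]
  simp only [Fin.snoc_castSucc]

lemma prod_low (d : Fin n → 𝓞 K) (e : 𝓞 K) (T : Finset (Fin n)) :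
    ∏ i ∈ T.map Fin.castSuccEmb, (Fin.snoc d e : Fin (n + 1) → 𝓞 K) i = ∏ i ∈ T, d i := by
  rw [Finset.prod_map]
  refine Finset.prod_congr rfl fun i _ => ?_
  rw [Fin.coe_castSuccEmb, Fin.snoc_castSucc (α := fun _ => 𝓞 K)]

lemma prod_high (d : Fin n → 𝓞 K) (e : 𝓞 K) (T : Finset (Fin n)) :
    ∏ i ∈ insert (Fin.last n) (T.map Fin.castSuccEmb), (Fin.snoc d e : Fin (n + 1) → 𝓞 K) i =
      e * ∏ i ∈ T, d i := by
  rw [Finset.prod_insert, prod_low, Fin.snoc_last]
  intro h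
  rw [Finset.mem_map] at h
  obtain ⟨i, -, hi⟩ := h
  exact (Fin.castSucc_lt_last i).ne hi

/-- the next field -/
theorem Cls.snoc_iff (hN : Cls a d N) (ha : a ^ 2 = a - 2) (hK : Module.finrank ℚ K = 2)
    {D e : 𝓞 K} (hD : InClass a D) (hc : ∀ i, IsCoprime D (d i)) (he : InClass a e)
    (hed : ∀ i, IsCoprime e (d i)) (heD : IsCoprime e D) :
    AllNoSelmer a (Fin.snoc d e : Fin (n + 1) → 𝓞 K) D ↔
      AllNoSelmer a d D ∧ ∀ T, NoSelmer (curve ((e * (D * N T) : 𝓞 K) : K)) := by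
  have hcl : ∀ T, InClass a (e * (D * N T)) := fun T =>
    mulK ha hK he (hN.mul ha hK hD hc T) (heD.mul_right (hN.cop e he hed T))
  constructor
  · intro h
    refine ⟨fun T N' c' hN' hc' h1 => h (T.map Fin.castSuccEmb) N' c' hN' hc' (by
      rw [prod_low]; exact h1), fun T => ?_⟩
    obtain ⟨c, hc0, h1⟩ := hN.pr T
    exact h (insert (Fin.last n) (T.map Fin.castSuccEmb)) _ c (hcl T) hc0 (by
      rw [prod_high, h1]
      ring)
  · rintro ⟨h, h'⟩ S N' c' hN' hc' h1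
    rw [prod_snoc] at h1
    by_cases hS : Fin.last n ∈ S
    · rw [if_pos hS] at h1
      obtain ⟨c, hc0, h2⟩ := hN.pr (Finset.univ.filter fun i : Fin n => i.castSucc ∈ S)
      rw [h2] at h1
      rw [uniqK ha hK hN' (hcl _) hc' hc0 (by rw [← h1]; ring)]
      exact h' _
    · rw [if_neg hS, mul_one] at h1
      exact h _ N' c' hN' hc' h1

/-- the elements with a dependent tuple -/
theorem Cls.ind_snoc (hN : Cls a d N) (ha : a ^ 2 = a - 2) (hK : Module.finrank ℚ K = 2)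
    (hind : Independent d) {e : 𝓞 K} (he : InClass a e) (hed : ∀ i, IsCoprime e (d i))
    (h1 : e ≠ 1) : Independent (Fin.snoc d e : Fin (n + 1) → 𝓞 K) := by
  intro S hS hsq
  have hcast : ∏ i ∈ S, (((Fin.snoc d e : Fin (n + 1) → 𝓞 K) i : 𝓞 K) : K) =
      ((∏ i ∈ S, (Fin.snoc d e : Fin (n + 1) → 𝓞 K) i : 𝓞 K) : K) := by
    rw [← map_prod (algebraMap (𝓞 K) K)]
  rw [hcast, prod_snoc] at hsq
  by_cases hl : Fin.last n ∈ S
  · rw [if_pos hl] at hsq
    obtain ⟨y, hy⟩ := hsq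
    have hint : IsIntegral ℤ y := by
      refine IsIntegral.of_pow (n := 2) (by norm_num) ?_
      rw [sq, ← hy]
      exact RingOfIntegers.isIntegral_coe _
    obtain ⟨Y, hY⟩ : ∃ Y : 𝓞 K, (Y : K) = y := ⟨⟨y, hint⟩, rfl⟩
    obtain ⟨c, hc0, h3⟩ := hN.pr (Finset.univ.filter fun i : Fin n => i.castSucc ∈ S)
    have h4 : (∏ i ∈ Finset.univ.filter (fun i : Fin n => i.castSucc ∈ S), d i) * e = Y * Y := by
      apply RingOfIntegers.ext
      rw [hy, ← hY]
      rfl
    set T := Finset.univ.filter fun i : Fin n => i.castSucc ∈ S with hT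
    have hcl : InClass a (e * N T) := mulK ha hK he (hN.cl T) (hN.cop e he hed T)
    have hY0 : Y ≠ 0 := by
      rintro rfl
      rw [h3] at h4
      have : N T * c ^ 2 * e ≠ 0 :=
        mul_ne_zero (mul_ne_zero (class_ne (hN.cl T)) (pow_ne_zero 2 hc0)) (class_ne he)
      exact this (by rw [h4]; ring)
    have h5 : e * N T = 1 := uniqK ha hK hcl (one_mem ha hK) hc0 hY0 (by
      rw [h3] at h4
      linear_combination h4)
    exact h1 (unit_one ha hK he (IsUnit.of_mul_eq_one _ h5))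
  · rw [if_neg hl, mul_one] at hsq
    have hne : (Finset.univ.filter fun i : Fin n => i.castSucc ∈ S).Nonempty := by
      obtain ⟨i, hi⟩ := hS
      have hi' : i ≠ Fin.last n := by
        rintro rfl
        exact hl hi
      refine ⟨i.castPred hi', Finset.mem_filter.2 ⟨Finset.mem_univ _, ?_⟩⟩
      rw [Fin.castSucc_castPred]
      exact hi
    refine hind _ hne ?_
    have : ∏ i ∈ Finset.univ.filter (fun i : Fin n => i.castSucc ∈ S), ((d i : 𝓞 K) : K) =
        ((∏ i ∈ Finset.univ.filter (fun i : Fin n => i.castSucc ∈ S), d i : 𝓞 K) : K) := by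
      rw [← map_prod (algebraMap (𝓞 K) K)]
    rw [this]
    exact hsq

/-! ### the laws -/

/-- the elements of the class prime to the `d i` and to the elements of `s` -/
def famS {K : Type} [Field K] [NumberField K] (a : 𝓞 K) {n : ℕ} (d : Fin n → 𝓞 K)
    (s : Finset (𝓞 K)) (X : ℕ) : Set (𝓞 K) :=
  {D | Ideal.absNorm (Ideal.span {D}) ≤ X ∧ InClass a D ∧ (∀ i, IsCoprime D (d i)) ∧
    ∀ m ∈ s, IsCoprime D m}

/-- the multipliers -/
def mu (N : Finset (Fin n) → 𝓞 K) (s : Finset (𝓞 K)) (p : s × Finset (Fin n)) : 𝓞 K :=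
  (p.1 : 𝓞 K) * N p.2

lemma isUnit_one_of {x y : 𝓞 K} (h : IsCoprime x y) (h' : x ∣ y) : IsUnit x :=
  h.isUnit_of_dvd' dvd_rfl h'

lemma mu_inj (hN : Cls a d N) (ha : a ^ 2 = a - 2) (hK : Module.finrank ℚ K = 2)
    {s : Finset (𝓞 K)} (hs : ∀ m ∈ s, InClass a m ∧ ∀ i, IsCoprime m (d i)) :
    Function.Injective (mu N s) := by
  rintro ⟨⟨m, hm⟩, T⟩ ⟨⟨m', hm'⟩, T'⟩ h
  have h1 : m * N T = m' * N T' := h
  obtain ⟨c1, c2⟩ := hs m hm
  obtain ⟨c1', c2'⟩ := hs m' hm'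
  -- `m` and `m'` divide each other
  have d1 : m ∣ m' := by
    have h2 : m ∣ m' * N T' := ⟨N T, h1.symm⟩
    exact (hN.cop m c1 c2 T').dvd_of_dvd_mul_right h2
  have d2 : m' ∣ m := by
    have h2 : m' ∣ m * N T := ⟨N T', h1⟩
    exact (hN.cop m' c1' c2' T).dvd_of_dvd_mul_right h2
  obtain ⟨u, hu⟩ := d1
  obtain ⟨u', hu'⟩ := d2
  have huu : u * u' = 1 := by
    apply mul_left_cancel₀ (class_ne c1)
    calc m * (u * u') = (m * u) * u' := by ring
      _ = m := by rw [← hu, ← hu']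
      _ = m * 1 := by ring
  have hNu : N T = u * N T' := by
    apply mul_left_cancel₀ (class_ne c1)
    rw [h1, hu]
    ring
  -- `u` is in the class up to squares
  have hm2 : m = m' := by
    have hu1 : InClass a u := by
      refine ⟨(IsUnit.of_mul_eq_one _ huu).squarefree, ?_, ?_⟩
      · obtain ⟨x, hx⟩ := c1.2.1
        obtain ⟨y, hy⟩ := c1'.2.1
        refine ⟨y - x * u, ?_⟩
        linear_combination -hu + hy - u * hx
      · intro h2
        have h3 : (2 * a - 1) ∣ (1 : 𝓞 K) := h2.trans ⟨u', huu.symm⟩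
        exact c1.2.2 (h3.trans (one_dvd _))
    rw [hu, unit_one ha hK hu1 (IsUnit.of_mul_eq_one _ huu), mul_one]
  subst hm2
  have h4 : N T = N T' := mul_left_cancel₀ (class_ne c1) h1
  rw [hN.inj h4]

lemma famI_eq (hN : Cls a d N) {s : Finset (𝓞 K)} (hs0 : s.Nonempty) (X : ℕ) :
    famI a (mu N s) X = famS a d s X := by
  ext D
  unfold famI famS
  simp only [Set.mem_ofPred_eq]
  refine and_congr_right fun _ => and_congr_right fun hD => ?_
  constructor
  · intro h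
    obtain ⟨m0, hm0⟩ := hs0
    refine ⟨fun i => ?_, fun m hm => ?_⟩
    · have h1 := h (⟨m0, hm0⟩, {i})
      unfold mu at h1
      rw [hN.sing i] at h1
      exact h1.of_mul_right_right
    · have h1 := h (⟨m, hm⟩, ∅)
      unfold mu at h1
      exact h1.of_mul_right_left
  · rintro ⟨h1, h2⟩ ⟨⟨m, hm⟩, T⟩
    exact (h2 m hm).mul_right (hN.cop D hD h1 T)

lemma good_mul (hN : Cls a d N) (ha : a ^ 2 = a - 2) (hK : Module.finrank ℚ K = 2)
    {s : Finset (𝓞 K)} (hs : ∀ m ∈ s, InClass a m ∧ ∀ i, IsCoprime m (d i)) {X : ℕ} {D : 𝓞 K}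
    (hD : D ∈ famS a d s X) : (∀ p, NoSelmer (curve ((D * mu N s p : 𝓞 K) : K))) ↔
      ∀ m ∈ s, GoodT a d (m * D) := by
  obtain ⟨-, h1, h2, h3⟩ := hD
  have hcl : ∀ m ∈ s, InClass a (m * D) ∧ ∀ i, IsCoprime (m * D) (d i) := fun m hm =>
    ⟨mulK ha hK (hs m hm).1 h1 (h3 m hm).symm, fun i => ((hs m hm).2 i).mul_left (h2 i)⟩
  have e1 : ∀ (m : 𝓞 K) (T : Finset (Fin n)), D * (m * N T) = m * D * N T := fun m T => by ring
  constructor
  · intro h m hm
    refine ⟨(hcl m hm).1, (hcl m hm).2, ?_⟩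
    rw [hN.good_iff ha hK (hcl m hm).1 (hcl m hm).2]
    intro T
    have := h (⟨m, hm⟩, T)
    unfold mu at this
    rwa [e1] at this
  · rintro h ⟨⟨m, hm⟩, T⟩
    have h4 := (hN.good_iff ha hK (hcl m hm).1 (hcl m hm).2).1 (h m hm).2.2 T
    unfold mu
    rw [e1]
    exact h4

/-- **the law of the twists** -/
theorem law_twist (ha : a ^ 2 = a - 2) (hK : Module.finrank ℚ K = 2) (hd : ∀ i, InClass a (d i))
    (hind : Independent d) {s : Finset (𝓞 K)} (hs0 : s.Nonempty)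
    (hs : ∀ m ∈ s, InClass a m ∧ ∀ i, IsCoprime m (d i)) :
    Tendsto (fun X : ℕ => ({D ∈ famS a d s X | ∀ m ∈ s, GoodT a d (m * D)}.ncard : ℝ) /
      ((famS a d s X).ncard : ℝ)) atTop
      (nhds (Pool.Agent.R426.QK.c2 ^ (s.card * 2 ^ n))) ∧
    ∃ δ : ℝ, 0 < δ ∧ ∀ᶠ X : ℕ in atTop, δ * X ≤ ((famS a d s X).ncard : ℝ) := by
  obtain ⟨N, hN⟩ := exists_cls ha hK hd hind
  have hcl : ∀ p : s × Finset (Fin n), InClass a (mu N s p) := fun p =>
    hN.mul ha hK (hs _ p.1.2).1 (hs _ p.1.2).2 p.2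
  obtain ⟨h1, h2⟩ := lawK ha hK (mu N s) hcl (mu_inj hN ha hK hs)
  rw [Fintype.card_prod, Fintype.card_coe, Fintype.card_finset, Fintype.card_fin] at h1
  simp only [famI_eq hN hs0] at h1 h2
  refine ⟨h1.congr fun X => ?_, h2⟩
  congr 2
  congr 1
  ext D
  exact and_congr_right fun hD => good_mul hN ha hK hs hD

/-- the next field and the twists -/
lemma next_iff (hN : Cls a d N) (ha : a ^ 2 = a - 2) (hK : Module.finrank ℚ K = 2)
    {m e : 𝓞 K} (hm : GoodT a d m) (he : InClass a e) (hed : ∀ i, IsCoprime e (d i))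
    (hem : IsCoprime e m) :
    GoodT a (Fin.snoc d e : Fin (n + 1) → 𝓞 K) m ↔ GoodT a d (m * e) := by
  have hcl : InClass a (m * e) := mulK ha hK hm.1 he hem.symm
  have hcop : ∀ i, IsCoprime (m * e) (d i) := fun i => (hm.2.1 i).mul_left (hed i)
  unfold GoodT
  rw [hN.snoc_iff ha hK hm.1 hm.2.1 he hed hem, hN.good_iff ha hK hcl hcop]
  have e1 : ∀ T : Finset (Fin n), e * (m * N T) = m * e * N T := fun T => by ring
  simp only [e1]
  constructor
  · rintro ⟨-, -, -, h⟩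
    exact ⟨hcl, hcop, h⟩
  · rintro ⟨-, -, h⟩
    refine ⟨hm.1, fun i => ?_, hm.2.2, h⟩
    refine Fin.lastCases ?_ (fun j => ?_) i
    · rw [Fin.snoc_last]
      exact hem.symm
    · rw [Fin.snoc_castSucc (α := fun _ => 𝓞 K)]
      exact hm.2.1 j

/-- **the law of the next field** -/
theorem law_next (ha : a ^ 2 = a - 2) (hK : Module.finrank ℚ K = 2) (hd : ∀ i, InClass a (d i))
    (hind : Independent d) {s : Finset (𝓞 K)} (hs0 : s.Nonempty) (hs : ∀ m ∈ s, GoodT a d m) :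
    Tendsto (fun X : ℕ => ({e ∈ famS a d s X | Independent (Fin.snoc d e : Fin (n + 1) → 𝓞 K) ∧
      ∀ m ∈ s, GoodT a (Fin.snoc d e : Fin (n + 1) → 𝓞 K) m}.ncard : ℝ) /
      ((famS a d s X).ncard : ℝ)) atTop
      (nhds (Pool.Agent.R426.QK.c2 ^ (s.card * 2 ^ n))) := by
  obtain ⟨N, hN⟩ := exists_cls ha hK hd hind
  obtain ⟨h1, δ, hδ, h2⟩ := law_twist ha hK hd hind hs0 fun m hm => ⟨(hs m hm).1, (hs m hm).2.1⟩
  set A : ℕ → Set (𝓞 K) := fun X => {D ∈ famS a d s X | ∀ m ∈ s, GoodT a d (m * D)} with hA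
  set B : ℕ → Set (𝓞 K) := fun X =>
    {e ∈ famS a d s X | Independent (Fin.snoc d e : Fin (n + 1) → 𝓞 K) ∧
      ∀ m ∈ s, GoodT a (Fin.snoc d e : Fin (n + 1) → 𝓞 K) m} with hB
  have hiff : ∀ X, ∀ e ∈ famS a d s X, (∀ m ∈ s, GoodT a (Fin.snoc d e : Fin (n + 1) → 𝓞 K) m) ↔
      ∀ m ∈ s, GoodT a d (m * e) := by
    intro X e he
    exact forall_congr' fun m => forall_congr' fun hm =>
      next_iff hN ha hK (hs m hm) he.2.1 he.2.2.1 (he.2.2.2 m hm)
  have hBA : ∀ X, B X ⊆ A X := fun X e he => ⟨he.1, (hiff X e he.1).1 he.2.2⟩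
  have hAB : ∀ X, A X ⊆ insert 1 (B X) := by
    intro X e he
    by_cases h : e = 1
    · exact Or.inl h
    · right
      exact ⟨he.1, hN.ind_snoc ha hK hind he.1.2.1 he.1.2.2.1 h, (hiff X e he.1).2 he.2⟩
  have key : ∀ᶠ X : ℕ in atTop, |((B X).ncard : ℝ) / ((famS a d s X).ncard : ℝ) -
      ((A X).ncard : ℝ) / ((famS a d s X).ncard : ℝ)| ≤ δ⁻¹ * (X : ℝ)⁻¹ := by
    filter_upwards [h2, eventually_ge_atTop 1] with X hX hX1
    have hX0 : (1 : ℝ) ≤ X := by exact_mod_cast hX1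
    have hpos : 0 < ((famS a d s X).ncard : ℝ) := lt_of_lt_of_le (by positivity) hX
    have hfin : (famS a d s X).Finite := by
      by_contra h
      rw [Set.Infinite.ncard h] at hpos
      simp at hpos
    have hfA : (A X).Finite := hfin.subset fun e he => he.1
    have hfB : (B X).Finite := hfin.subset fun e he => he.1
    have c1 : (B X).ncard ≤ (A X).ncard := Set.ncard_le_ncard (hBA X) hfA
    have c2 : (A X).ncard ≤ (B X).ncard + 1 :=
      (Set.ncard_le_ncard (hAB X) (hfB.insert 1)).trans (Set.ncard_insert_le _ _)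
    have c1' : ((B X).ncard : ℝ) ≤ (A X).ncard := by exact_mod_cast c1
    have c2' : ((A X).ncard : ℝ) ≤ (B X).ncard + 1 := by exact_mod_cast c2
    rw [← sub_div, abs_div, abs_of_pos hpos, div_le_iff₀ hpos]
    have e1 : |((B X).ncard : ℝ) - (A X).ncard| ≤ 1 := by
      rw [abs_le]
      constructor <;> linarith
    refine e1.trans ?_
    have e2 : δ⁻¹ * (X : ℝ)⁻¹ * (δ * X) = 1 := by
      field_simp
    rw [← e2]
    exact mul_le_mul_of_nonneg_left hX (by positivity)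
  have hlim : Tendsto (fun X : ℕ => δ⁻¹ * (X : ℝ)⁻¹) atTop (nhds 0) := by
    have h5 : Tendsto (fun X : ℕ => ((X : ℝ))⁻¹) atTop (nhds 0) :=
      tendsto_inv_atTop_zero.comp tendsto_natCast_atTop_atTop
    have := h5.const_mul δ⁻¹
    rw [mul_zero] at this
    exact this
  have hdiff : Tendsto (fun X : ℕ => ((B X).ncard : ℝ) / ((famS a d s X).ncard : ℝ) -
      ((A X).ncard : ℝ) / ((famS a d s X).ncard : ℝ)) atTop (nhds 0) :=
    squeeze_zero_norm' key hlim
  have := hdiff.add h1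
  rw [zero_add] at this
  refine this.congr fun X => ?_
  exact sub_add_cancel _ _

/-- the existence of the next field -/
theorem exists_next (ha : a ^ 2 = a - 2) (hK : Module.finrank ℚ K = 2) (hd : ∀ i, InClass a (d i))
    (hind : Independent d) {s : Finset (𝓞 K)} (hs0 : s.Nonempty) (hs : ∀ m ∈ s, GoodT a d m) :
    ∃ e : 𝓞 K, InClass a e ∧ Independent (Fin.snoc d e : Fin (n + 1) → 𝓞 K) ∧
      ∀ m ∈ s, GoodT a (Fin.snoc d e : Fin (n + 1) → 𝓞 K) m := by
  by_contra hne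
  push Not at hne
  have h1 := law_next ha hK hd hind hs0 hs
  have h2 : ∀ X : ℕ, {e ∈ famS a d s X | Independent (Fin.snoc d e : Fin (n + 1) → 𝓞 K) ∧
      ∀ m ∈ s, GoodT a (Fin.snoc d e : Fin (n + 1) → 𝓞 K) m} = ∅ := by
    intro X
    rw [Set.eq_empty_iff_forall_notMem]
    rintro e ⟨he, h3, h4⟩
    obtain ⟨m, hm, h5⟩ := hne e he.2.1 h3
    exact h5 (h4 m hm)
  simp only [h2, Set.ncard_empty, Nat.cast_zero, zero_div] at h1
  have h3 := tendsto_nhds_unique h1 tendsto_const_nhds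
  obtain ⟨-, hc0, -⟩ := Pool.Agent.R426.QK.MOM.t_C2
  exact (pow_pos hc0 _).ne' h3

end

/-! ### towers -/

/-- dependent choice -/
theorem exists_seq {α : Type} {Ω : (k : ℕ) → (Fin k → α) → Prop} (h0 : Ω 0 Fin.elim0)
    (h : ∀ k f, Ω k f → ∃ D, Ω (k + 1) (Fin.snoc f D)) :
    ∃ q : ℕ → α, ∀ k, Ω k fun i : Fin k => q i := by
  choose g hg using h
  let s : (k : ℕ) → {f : Fin k → α // Ω k f} := fun k =>
    Nat.rec ⟨Fin.elim0, h0⟩ (fun k f => ⟨Fin.snoc f.1 (g k f.1 f.2), hg k f.1 f.2⟩) k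
  have hs : ∀ k, (s (k + 1)).1 = Fin.snoc (s k).1 (g k (s k).1 (s k).2) := fun k => rfl
  refine ⟨fun k => (s (k + 1)).1 (Fin.last k), fun k => ?_⟩
  have key : ∀ k, (s k).1 = fun i : Fin k => (s ((i : ℕ) + 1)).1 (Fin.last i) := by
    intro k
    induction k with
    | zero =>
      funext i
      exact i.elim0
    | succ k ih =>
      funext i
      refine Fin.lastCases ?_ (fun j => ?_) i
      · rfl
      · rw [hs k, Fin.snoc_castSucc (α := fun _ => α)]
        exact congrFun ih j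
  rw [← key k]
  exact (s k).2

/-- **the towers** -/
theorem towers {K : Type} [Field K] [NumberField K] {a : 𝓞 K} (ha : a ^ 2 = a - 2)
    (hK : Module.finrank ℚ K = 2) {n : ℕ} {d : Fin n → 𝓞 K} (hd : ∀ i, InClass a (d i))
    (hind : Independent d) {s : Finset (𝓞 K)} (hs0 : s.Nonempty) (hs : ∀ m ∈ s, GoodT a d m) :
    ∃ q : ℕ → 𝓞 K, (∀ j, InClass a (q j)) ∧ ∀ k, Independent (Fin.append d fun i : Fin k => q i) ∧
      ∀ m ∈ s, GoodT a (Fin.append d fun i : Fin k => q i) m := by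
  obtain ⟨q, hq⟩ := exists_seq (Ω := fun k f => (∀ j, InClass a (f j)) ∧
      Independent (Fin.append d f) ∧ ∀ m ∈ s, GoodT a (Fin.append d f) m) (by
    have e0 : Fin.append d (Fin.elim0 : Fin 0 → 𝓞 K) = d := by
      funext i
      exact Fin.append_left d _ i
    refine ⟨fun i => i.elim0, ?_, ?_⟩
    · rw [e0]
      exact hind
    · rw [e0]
      exact hs) (by
    rintro k f ⟨h1, h2, h3⟩
    have h4 : ∀ i, InClass a (Fin.append d f i) := fun i => by
      refine Fin.addCases (fun j => ?_) (fun j => ?_) i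
      · rw [Fin.append_left]
        exact hd j
      · rw [Fin.append_right]
        exact h1 j
    obtain ⟨e, g1, g2, g3⟩ := exists_next ha hK h4 h2 hs0 h3
    have e1 : Fin.append d (Fin.snoc f e : Fin (k + 1) → 𝓞 K) =
        (Fin.snoc (Fin.append d f) e : Fin (n + k + 1) → 𝓞 K) := Fin.append_snoc d f e
    refine ⟨e, fun j => ?_, ?_, ?_⟩
    · refine Fin.lastCases ?_ (fun j => ?_) j
      · rw [Fin.snoc_last]
        exact g1
      · rw [Fin.snoc_castSucc (α := fun _ => 𝓞 K)]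
        exact h1 j
    · rw [e1]
      exact g2
    · rw [e1]
      exact g3)
  refine ⟨q, fun j => (hq (j + 1)).1 (Fin.last j), fun k => (hq k).2⟩

end Pool.Agent.N843.TT
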