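import Pool.Agent.N843.TT.Frob
import Pool.Agent.N843.TT.Next

/-!
# The intersections of two quadrics over the multiquadratic extensions of `ℚ(√-7)`
-/

set_option autoImplicit false
set_option linter.unusedSectionVars false

open scoped Classical

namespace Pool.Agent.N843.TT

open NumberField IsDedekindDomain Filter
open Pool.Agent.Results.MP_cd906c_nt.MultiquadraticX49 (curve InClass NoSelmer AllNoSelmer
  Independent all_iff)
open Pool.Agent.R426.QM (IsF)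

section

variable {K : Type} [Field K] [NumberField K] {a : 𝓞 K}

/-- the points and the `L`-function of the curve -/
theorem curveL (ha : a ^ 2 = a - 2) (hK : Module.finrank ℚ K = 2) {n : ℕ} {d : Fin n → 𝓞 K}
    (hd : ∀ i, InClass a (d i)) (hind : Independent d) {D : 𝓞 K} (hD : GoodT a d D)
    (L : Type) [Field L] [NumberField L] [Algebra K L] (x : Fin n → L)
    (hx : ∀ i, x i ^ 2 = algebraMap K L ((d i : 𝓞 K) : K))
    (hL : IntermediateField.adjoin K (Set.range x) = ⊤) :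
    Finite (curve ((algebraMap (𝓞 K) (𝓞 L) D : 𝓞 L) : L)).toAffine.Point ∧
      ∃ F : ℂ → ℂ, IsF (algebraMap (𝓞 K) (𝓞 L) D)
        (algebraMap (𝓞 K) (𝓞 L) (14 * D * ∏ i, d i)) F := by
  obtain ⟨h1, h2, h3⟩ := hD
  obtain ⟨-, h4⟩ := Pool.Agent.R426.QM.overL Pool.Agent.R426.QM.Split.t_SPLIT
    Pool.Agent.R426.QM.t_TR (Pool.Agent.R426.QM.FS.t_FS Pool.Agent.R426.QM.Fin.t_FIN)
    Pool.Agent.R426.QM.Cls.t_CLS Pool.Agent.R426.QM.Cls.t_MUL ha hK d hd hind h1 h2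
    ((all_iff ha hK d D).1 h3)
  obtain ⟨h5, -, F, hF⟩ := h4 L x hx hL
  refine ⟨?_, F, hF⟩
  have hcoe : ((algebraMap (𝓞 K) (𝓞 L) D : 𝓞 L) : L) = algebraMap K L (D : K) := by
    show algebraMap (𝓞 L) L (algebraMap (𝓞 K) (𝓞 L) D) = algebraMap K L (algebraMap (𝓞 K) K D)
    rw [← IsScalarTower.algebraMap_apply (𝓞 K) (𝓞 L) L,
      ← IsScalarTower.algebraMap_apply (𝓞 K) K L]
  rw [hcoe]
  exact h5

theorem algebraMap_inj {K : Type} [Field K] [NumberField K] (L : Type) [Field L] [NumberField L]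
    [Algebra K L] : Function.Injective (algebraMap (𝓞 K) (𝓞 L)) :=
  FaithfulSMul.algebraMap_injective _ _

/-- the degree -/
theorem degL {n : ℕ} {d : Fin n → 𝓞 K}
    (hd : ∀ i, InClass a (d i)) (hind : Independent d)
    (L : Type) [Field L] [NumberField L] [Algebra K L] (x : Fin n → L)
    (hx : ∀ i, x i ^ 2 = algebraMap K L ((d i : 𝓞 K) : K))
    (hL : IntermediateField.adjoin K (Set.range x) = ⊤) : Module.finrank K L = 2 ^ n :=
  Pool.Agent.R426.QM.deg (fun i => ((d i : 𝓞 K) : K))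
    (fun i h => (hd i).1.ne_zero (by exact_mod_cast h)) hind x hx hL

/-- **the threefolds** -/
theorem threefold (ha : a ^ 2 = a - 2) (hK : Module.finrank ℚ K = 2) {n : ℕ} {d : Fin n → 𝓞 K}
    (hd : ∀ i, InClass a (d i)) (hind : Independent d) {D D' : 𝓞 K} (hD : GoodT a d D)
    (hD' : GoodT a d D')
    (L : Type) [Field L] [NumberField L] [Algebra K L] (x : Fin n → L)
    (hx : ∀ i, x i ^ 2 = algebraMap K L ((d i : 𝓞 K) : K))
    (hL : IntermediateField.adjoin K (Set.range x) = ⊤) {m : 𝓞 L} (hm : m ≠ 0)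
    {A B : Matrix (Fin 6) (Fin 6) (𝓞 L)}
    (hAB : IsPencil (algebraMap (𝓞 K) (𝓞 L) a) (algebraMap (𝓞 K) (𝓞 L) D)
      (algebraMap (𝓞 K) (𝓞 L) D') m A B) :
    ∃ ω : HeightOneSpectrum (𝓞 L) → Fin 4 → ℂ,
      (∀ v, 42 * (algebraMap (𝓞 K) (𝓞 L) D * algebraMap (𝓞 K) (𝓞 L) D' * m) *
        algebraMap (𝓞 K) (𝓞 L) (∏ i, d i) ∉ v.asIdeal → IsFrob A B v (ω v)) ∧
      ∃ Λ : ℂ → ℂ, Differentiable ℂ Λ ∧
        (∀ s : ℂ, (5 : ℝ) / 2 < s.re →
          HasProd (fun v : HeightOneSpectrum (𝓞 L) =>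
            if 42 * (algebraMap (𝓞 K) (𝓞 L) D * algebraMap (𝓞 K) (𝓞 L) D' * m) *
              algebraMap (𝓞 K) (𝓞 L) (∏ i, d i) ∈ v.asIdeal then 1 else
              ∏ j, (1 - ω v j * (qv v : ℂ) ^ (-s))⁻¹) (Λ s)) ∧ Λ 2 ≠ 0 := by
  obtain ⟨-, F, hF⟩ := curveL ha hK hd hind hD L x hx hL
  obtain ⟨-, F', hF'⟩ := curveL ha hK hd hind hD' L x hx hL
  have hinj := algebraMap_inj (K := K) L
  have hne : ∀ y : 𝓞 K, y ≠ 0 → algebraMap (𝓞 K) (𝓞 L) y ≠ 0 := fun y hy =>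
    (map_ne_zero_iff _ hinj).2 hy
  have hw : (algebraMap (𝓞 K) (𝓞 L) a) ^ 2 = algebraMap (𝓞 K) (𝓞 L) a - 2 := by
    rw [← map_pow, ha, map_sub, map_ofNat]
  have e1 : algebraMap (𝓞 K) (𝓞 L) (14 * D * ∏ i, d i) =
      14 * algebraMap (𝓞 K) (𝓞 L) D * algebraMap (𝓞 K) (𝓞 L) (∏ i, d i) := by
    rw [map_mul, map_mul, map_ofNat]
  have e2 : algebraMap (𝓞 K) (𝓞 L) (14 * D' * ∏ i, d i) =
      14 * algebraMap (𝓞 K) (𝓞 L) D' * algebraMap (𝓞 K) (𝓞 L) (∏ i, d i) := by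
    rw [map_mul, map_mul, map_ofNat]
  rw [e1] at hF
  rw [e2] at hF'
  refine main hw hAB (dvd_mul_right _ _) (dvd_mul_right _ _) ?_ ?_ (dvd_mul_right _ _) ?_ hF hF'
  · exact ⟨3 * algebraMap (𝓞 K) (𝓞 L) D' * m, by ring⟩
  · exact ⟨3 * algebraMap (𝓞 K) (𝓞 L) D * m, by ring⟩
  · refine mul_ne_zero (mul_ne_zero (by norm_num) (mul_ne_zero (mul_ne_zero (hne D ?_) (hne D' ?_))
      hm)) (hne _ ?_)
    · exact class_ne hD.1
    · exact class_ne hD'.1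
    · exact Finset.prod_ne_zero_iff.2 fun i _ => class_ne (hd i)

end

end Pool.Agent.N843.TT
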