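import Pool.Agent.N843.TT.Pen
import Pool.Agent.R426.QM.Stm

/-!
# The `L`-function of the third cohomology over a number field
-/

set_option autoImplicit false
set_option linter.unusedSectionVars false

namespace Pool.Agent.N843.TT

open NumberField IsDedekindDomain
open Pool.Agent.R426.QM (aw IsF)
open Pool.Agent.N843.BB (Ok SK)
open Pool.Agent.N844.QP (numP)

variable {L : Type} [Field L] [NumberField L]

/-- the number of elements of the residue field -/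
noncomputable def qv (v : HeightOneSpectrum (𝓞 L)) : ℕ := Nat.card (𝓞 L ⧸ v.asIdeal)

/-- the reduction modulo `v` -/
noncomputable def rd (v : HeightOneSpectrum (𝓞 L)) (k : Type) [Field k]
    [Algebra (𝓞 L ⧸ v.asIdeal) k] : 𝓞 L →+* k :=
  (algebraMap (𝓞 L ⧸ v.asIdeal) k).comp (Ideal.Quotient.mk v.asIdeal)

/-- `ω` are the eigenvalues of Frobenius at `v` on the third cohomology -/
def IsFrob (A B : Matrix (Fin 6) (Fin 6) (𝓞 L)) (v : HeightOneSpectrum (𝓞 L)) (ω : Fin 4 → ℂ) :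
    Prop :=
  (∀ j, ‖ω j‖ = (qv v : ℝ) ^ ((3 : ℝ) / 2)) ∧
    ∀ (k : Type) [Field k] [Fintype k] [Algebra (𝓞 L ⧸ v.asIdeal) k] (r : ℕ),
      Fintype.card k = qv v ^ r →
      (numP (A.map (rd v k)) (B.map (rd v k)) : ℂ) =
        1 + (qv v : ℂ) ^ r + (qv v : ℂ) ^ (2 * r) + (qv v : ℂ) ^ (3 * r) - ∑ j, ω j ^ r

/-- the Euler polynomial -/
noncomputable def den (D : 𝓞 L) (v : HeightOneSpectrum (𝓞 L)) (s : ℂ) : ℂ :=
  1 - (aw D v : ℂ) * (qv v : ℂ) ^ (-s) + (qv v : ℂ) ^ (1 - 2 * s)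

lemma eul_eq (D : 𝓞 L) (v : HeightOneSpectrum (𝓞 L)) (s : ℂ) :
    Pool.Agent.R426.QM.eul D s v = (den D v s)⁻¹ := rfl

lemma not_mem_dvd {v : HeightOneSpectrum (𝓞 L)} {x y : 𝓞 L} (hy : y ∉ v.asIdeal) (h : x ∣ y) :
    x ∉ v.asIdeal := by
  intro h0
  obtain ⟨c, hc⟩ := h
  exact hy (hc ▸ v.asIdeal.mul_mem_right c h0)

lemma finite_res (v : HeightOneSpectrum (𝓞 L)) : Finite (𝓞 L ⧸ v.asIdeal) :=
  Ideal.finiteQuotientOfFreeOfNeBot v.asIdeal v.ne_bot

lemma two_le_qv (v : HeightOneSpectrum (𝓞 L)) : 2 ≤ qv v := by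
  have h1 := finite_res v
  have hm : v.asIdeal.IsMaximal := v.isMaximal
  have h2 : Nontrivial (𝓞 L ⧸ v.asIdeal) := Ideal.Quotient.nontrivial_iff.2 hm.ne_top
  exact Finite.one_lt_card

/-- the eigenvalues of Frobenius -/
theorem loc {v : HeightOneSpectrum (𝓞 L)} {D : 𝓞 L} (h : 14 * D ∉ v.asIdeal) :
    ∃ α β : ℂ, α + β = (aw D v : ℂ) ∧ α * β = (qv v : ℂ) ∧ ‖α‖ = Real.sqrt (qv v) ∧
      ‖β‖ = Real.sqrt (qv v) ∧
      ∀ (k : Type) [Field k] [Fintype k] [DecidableEq k] [Algebra (𝓞 L ⧸ v.asIdeal) k] (r : ℕ),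
        Fintype.card k = qv v ^ r → ((SK (rd v k D) : ℤ) : ℂ) = -(α ^ r + β ^ r) := by
  classical
  have hm : v.asIdeal.IsMaximal := v.isMaximal
  let _ : Field (𝓞 L ⧸ v.asIdeal) := Ideal.Quotient.field v.asIdeal
  have hfin : Finite (𝓞 L ⧸ v.asIdeal) := finite_res v
  let _ : Fintype (𝓞 L ⧸ v.asIdeal) := Fintype.ofFinite _
  have hcF : Fintype.card (𝓞 L ⧸ v.asIdeal) = qv v := by
    unfold qv
    rw [Nat.card_eq_fintype_card]
  have n0 : ∀ x : 𝓞 L, x ∣ 14 * D → Ideal.Quotient.mk v.asIdeal x ≠ 0 := by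
    intro x hx h0
    rw [Ideal.Quotient.eq_zero_iff_mem] at h0
    exact not_mem_dvd h hx h0
  have f2 : (2 : 𝓞 L ⧸ v.asIdeal) ≠ 0 := by
    have := n0 2 ⟨7 * D, by ring⟩
    rwa [map_ofNat] at this
  have f7 : (7 : 𝓞 L ⧸ v.asIdeal) ≠ 0 := by
    have := n0 7 ⟨2 * D, by ring⟩
    rwa [map_ofNat] at this
  have fD : Ideal.Quotient.mk v.asIdeal D ≠ 0 := n0 D ⟨14, by ring⟩
  have hF : ringChar (𝓞 L ⧸ v.asIdeal) ≠ 2 := by
    intro h0
    apply f2
    have := ringChar.spec (𝓞 L ⧸ v.asIdeal) 2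
    rw [h0] at this
    exact_mod_cast this.2 dvd_rfl
  obtain ⟨α, β, a1, a2, a3, a4, a5⟩ := eigen_ext f2 f7 fD
  have h1 := card_eq hF (Ideal.Quotient.mk v.asIdeal D)
  have h2 : aw D v = -SK (Ideal.Quotient.mk v.asIdeal D) := by
    rw [← h1, hcF]
    rfl
  rw [hcF] at a2 a3 a4
  refine ⟨α, β, by rw [a1, h2], a2, a3, a4, fun k _ _ _ _ r hr => ?_⟩
  exact a5 k r (by rw [hcF]; exact hr)

lemma qv_ne (v : HeightOneSpectrum (𝓞 L)) : (qv v : ℂ) ≠ 0 := by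
  have := two_le_qv v
  exact_mod_cast (by omega : qv v ≠ 0)

lemma den_of {v : HeightOneSpectrum (𝓞 L)} {D : 𝓞 L} {α β : ℂ} (h1 : α + β = (aw D v : ℂ))
    (h2 : α * β = (qv v : ℂ)) (s : ℂ) :
    den D v s = (1 - α * (qv v : ℂ) ^ (-s)) * (1 - β * (qv v : ℂ) ^ (-s)) := by
  have e2 : (qv v : ℂ) ^ (1 - 2 * s) = (qv v : ℂ) * ((qv v : ℂ) ^ (-s)) ^ 2 := by
    rw [show 1 - 2 * s = 1 + (-s + -s) by ring, Complex.cpow_add _ _ (qv_ne v),
      Complex.cpow_add _ _ (qv_ne v), Complex.cpow_one]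
    ring
  unfold den
  rw [e2, ← h1]
  linear_combination -((qv v : ℂ) ^ (-s)) ^ 2 * h2

lemma den_ne {v : HeightOneSpectrum (𝓞 L)} {D : 𝓞 L} (h : 14 * D ∉ v.asIdeal) {s : ℂ}
    (hs : 1 / 2 < s.re) : den D v s ≠ 0 := by
  obtain ⟨α, β, a1, a2, a3, a4, -⟩ := loc h
  rw [den_of a1 a2]
  have hq2 : (2 : ℝ) ≤ qv v := by exact_mod_cast two_le_qv v
  have hqp : (0 : ℝ) < qv v := by linarith
  have hlt : ∀ γ : ℂ, ‖γ‖ = Real.sqrt (qv v) → 1 - γ * (qv v : ℂ) ^ (-s) ≠ 0 := by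
    intro γ hγ h0
    have h5 : γ * (qv v : ℂ) ^ (-s) = 1 := by linear_combination - h0
    have h6 : ‖γ * (qv v : ℂ) ^ (-s)‖ = (qv v : ℝ) ^ (1 / 2 - s.re) := by
      rw [norm_mul, hγ, Complex.norm_natCast_cpow_of_pos (by
          have := two_le_qv v; omega),
        Complex.neg_re, Real.sqrt_eq_rpow, ← Real.rpow_add hqp]
      ring_nf
    rw [h5, norm_one] at h6
    have h7 : (qv v : ℝ) ^ (1 / 2 - s.re) < 1 :=
      Real.rpow_lt_one_of_one_lt_of_neg (by linarith) (by linarith)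
    linarith
  exact mul_ne_zero (hlt α a3) (hlt β a4)

lemma den_differentiable (D : 𝓞 L) (v : HeightOneSpectrum (𝓞 L)) : Differentiable ℂ (den D v) := by
  have h1 : Differentiable ℂ fun s : ℂ => (qv v : ℂ) ^ (-s) := fun s =>
    (differentiableAt_id.neg).const_cpow (Or.inl (qv_ne v))
  have h2 : Differentiable ℂ fun s : ℂ => (qv v : ℂ) ^ (1 - 2 * s) := fun s =>
    ((differentiableAt_const 1).sub (differentiableAt_id.const_mul 2)).const_cpow (Or.inl (qv_ne v))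
  exact ((differentiable_const 1).sub (h1.const_mul (aw D v : ℂ))).add h2

/-- the eigenvalues of Frobenius on the third cohomology -/
theorem frobV {w D D' m : 𝓞 L} (hw : w ^ 2 = w - 2) {A B : Matrix (Fin 6) (Fin 6) (𝓞 L)}
    (hAB : IsPencil w D D' m A B) {v : HeightOneSpectrum (𝓞 L)}
    (h : 42 * (D * D' * m) ∉ v.asIdeal) :
    ∃ ω : Fin 4 → ℂ, IsFrob A B v ω ∧ ∀ s : ℂ, ∏ j, (1 - ω j * (qv v : ℂ) ^ (-s)) =
      den D v (s - 1) * den D' v (s - 1) := by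
  obtain ⟨α, β, a1, a2, a3, a4, a5⟩ :=
    loc (not_mem_dvd h ⟨3 * (D' * m), by ring⟩ : 14 * D ∉ v.asIdeal)
  obtain ⟨α', β', b1, b2, b3, b4, b5⟩ :=
    loc (not_mem_dvd h ⟨3 * (D * m), by ring⟩ : 14 * D' ∉ v.asIdeal)
  have hq0 : (0 : ℝ) < qv v := by
    have := two_le_qv v
    exact_mod_cast (by omega : 0 < qv v)
  have hpw : (qv v : ℝ) * Real.sqrt (qv v) = (qv v : ℝ) ^ ((3 : ℝ) / 2) := by
    rw [Real.sqrt_eq_rpow, show ((3 : ℝ) / 2) = 1 + 1 / 2 by norm_num, Real.rpow_add hq0,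
      Real.rpow_one]
  refine ⟨![qv v * α, qv v * β, qv v * α', qv v * β'], ⟨fun j => ?_, fun k _ _ _ r hr => ?_⟩,
    fun s => ?_⟩
  · fin_cases j <;>
      simp only [Fin.mk_zero, Fin.mk_one, Fin.reduceFinMk, Matrix.cons_val_zero,
        Matrix.cons_val_one, Matrix.cons_val, norm_mul, a3, a4, b3, b4, Complex.norm_natCast] <;>
      exact hpw
  · classical
    have hm : v.asIdeal.IsMaximal := v.isMaximal
    have hinj : ∀ x : 𝓞 L, x ∣ 42 * (D * D' * m) → rd v k x ≠ 0 := by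
      intro x hx h0
      let _ : Field (𝓞 L ⧸ v.asIdeal) := Ideal.Quotient.field v.asIdeal
      have h1 : algebraMap (𝓞 L ⧸ v.asIdeal) k (Ideal.Quotient.mk v.asIdeal x) = 0 := h0
      have h2 := (map_eq_zero (algebraMap (𝓞 L ⧸ v.asIdeal) k)).1 h1
      rw [Ideal.Quotient.eq_zero_iff_mem] at h2
      exact not_mem_dvd h hx h2
    have k2 : (2 : k) ≠ 0 := by
      have := hinj 2 ⟨21 * (D * D' * m), by ring⟩
      rwa [map_ofNat] at this
    have k3 : (3 : k) ≠ 0 := by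
      have := hinj 3 ⟨14 * (D * D' * m), by ring⟩
      rwa [map_ofNat] at this
    have k7 : (7 : k) ≠ 0 := by
      have := hinj 7 ⟨6 * (D * D' * m), by ring⟩
      rwa [map_ofNat] at this
    have h1 := hAB.numP (ok_map (rd v k) hw k2 k3 k7) (hinj D ⟨42 * (D' * m), by ring⟩)
      (hinj D' ⟨42 * (D * m), by ring⟩) (hinj m ⟨42 * (D * D'), by ring⟩)
    have h2 := a5 k r hr
    have h3 := b5 k r hr
    have h4 := congrArg (fun n : ℤ => (n : ℂ)) h1
    push_cast at h4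
    rw [h2, h3, hr] at h4
    rw [h4]
    simp only [Fin.sum_univ_four, Matrix.cons_val_zero, Matrix.cons_val_one, Matrix.cons_val]
    push_cast
    rw [mul_pow, mul_pow, mul_pow, mul_pow]
    ring
  · simp only [Fin.prod_univ_four, Matrix.cons_val_zero, Matrix.cons_val_one, Matrix.cons_val]
    have e1 : (qv v : ℂ) ^ (-(s - 1)) = qv v * (qv v : ℂ) ^ (-s) := by
      rw [show -(s - 1) = 1 + -s by ring, Complex.cpow_add _ _ (qv_ne v), Complex.cpow_one]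
    rw [den_of a1 a2, den_of b1 b2, e1]
    ring

/-- the places dividing a nonzero element -/
theorem finite_places {M : 𝓞 L} (hM : M ≠ 0) :
    {v : HeightOneSpectrum (𝓞 L) | M ∈ v.asIdeal}.Finite := by
  have h0 : Ideal.span {M} ≠ 0 := by
    rw [Ne, Ideal.zero_eq_bot, Ideal.span_singleton_eq_bot]
    exact hM
  refine (Ideal.finite_factors h0).subset fun v hv => ?_
  simp only [Set.mem_ofPred_eq] at hv ⊢
  rw [Ideal.dvd_span_singleton]
  exact hv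

lemma mem_dvd {v : HeightOneSpectrum (𝓞 L)} {M N : 𝓞 L} (h : M ∣ N) (hM : M ∈ v.asIdeal) :
    N ∈ v.asIdeal := by
  obtain ⟨c, rfl⟩ := h
  exact Ideal.mul_mem_right _ _ hM

open scoped Classical in
/-- removing Euler factors -/
theorem remove {D M N : 𝓞 L} (hDM : 14 * D ∣ M) (hMN : M ∣ N) (hN : N ≠ 0) {F : ℂ → ℂ}
    (hF : IsF D M F) : ∃ G : ℂ → ℂ, IsF D N G := by
  obtain ⟨f1, f2, f3⟩ := hF
  have hfin : {v : HeightOneSpectrum (𝓞 L) | N ∈ v.asIdeal ∧ M ∉ v.asIdeal}.Finite :=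
    (finite_places hN).subset fun v hv => hv.1
  set S : Finset (HeightOneSpectrum (𝓞 L)) := hfin.toFinset with hS
  have hmem : ∀ v, v ∈ S ↔ N ∈ v.asIdeal ∧ M ∉ v.asIdeal := fun v => by rw [hS]; simp
  have g1 : ∀ v : HeightOneSpectrum (𝓞 L), M ∉ v.asIdeal → 14 * D ∉ v.asIdeal :=
    fun v hv => not_mem_dvd hv hDM
  refine ⟨fun s => F s * ∏ v ∈ S, den D v s, ?_, ?_, fun s hs => ?_⟩
  · exact f1.mul (Differentiable.fun_finsetProd fun v _ => den_differentiable D v)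
  · refine mul_ne_zero f2 (Finset.prod_ne_zero_iff.2 fun v hv => ?_)
    exact den_ne (g1 v ((hmem v).1 hv).2) (by norm_num)
  · have hs2 : 1 / 2 < s.re := by linarith
    have h4 : HasProd (fun v => if v ∈ S then den D v s else 1) (∏ v ∈ S, den D v s) := by
      have h5 : HasProd (fun v => if v ∈ S then den D v s else 1)
          (∏ v ∈ S, if v ∈ S then den D v s else 1) :=
        hasProd_prod_of_ne_finset_one (fun v hv => if_neg hv)
      have h6 : ∏ v ∈ S, (if v ∈ S then den D v s else 1) = ∏ v ∈ S, den D v s :=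
        Finset.prod_congr rfl fun v hv => if_pos hv
      rw [h6] at h5
      exact h5
    refine (congrArg (fun g => HasProd g (F s * ∏ v ∈ S, den D v s)) (funext fun v => ?_)).mp
      ((f3 s hs).mul h4)
    by_cases hb : M ∈ v.asIdeal
    · rw [if_pos hb, if_pos (mem_dvd hMN hb), if_neg (fun h => ((hmem v).1 h).2 hb), one_mul]
    · rw [if_neg hb]
      by_cases hc : N ∈ v.asIdeal
      · rw [if_pos ((hmem v).2 ⟨hc, hb⟩), if_pos hc, eul_eq]
        exact inv_mul_cancel₀ (den_ne (g1 v hb) hs2)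
      · rw [if_neg (fun h => hc ((hmem v).1 h).1), if_neg hc, mul_one]

open scoped Classical in
/-- **the `L`-function of the third cohomology** -/
theorem main {w D D' m M M' N : 𝓞 L} (hw : w ^ 2 = w - 2) {A B : Matrix (Fin 6) (Fin 6) (𝓞 L)}
    (hAB : IsPencil w D D' m A B) (hDM : 14 * D ∣ M) (hDM' : 14 * D' ∣ M') (hMN : M ∣ N)
    (hMN' : M' ∣ N) (hX : 42 * (D * D' * m) ∣ N) (hN : N ≠ 0)
    {F F' : ℂ → ℂ} (hF : IsF D M F) (hF' : IsF D' M' F') :
    ∃ ω : HeightOneSpectrum (𝓞 L) → Fin 4 → ℂ,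
      (∀ v, N ∉ v.asIdeal → IsFrob A B v (ω v)) ∧
      ∃ Λ : ℂ → ℂ, Differentiable ℂ Λ ∧
        (∀ s : ℂ, (5 : ℝ) / 2 < s.re →
          HasProd (fun v : HeightOneSpectrum (𝓞 L) =>
            if N ∈ v.asIdeal then 1 else ∏ j, (1 - ω v j * (qv v : ℂ) ^ (-s))⁻¹) (Λ s)) ∧
        Λ 2 ≠ 0 := by
  obtain ⟨G, g1, g2, g3⟩ := remove hDM hMN hN hF
  obtain ⟨G', g1', g2', g3'⟩ := remove hDM' hMN' hN hF'
  have hex : ∀ v : HeightOneSpectrum (𝓞 L), ∃ ω : Fin 4 → ℂ, N ∉ v.asIdeal →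
      (IsFrob A B v ω ∧ ∀ s : ℂ, ∏ j, (1 - ω j * (qv v : ℂ) ^ (-s)) =
        den D v (s - 1) * den D' v (s - 1)) := by
    intro v
    by_cases hb : N ∈ v.asIdeal
    · exact ⟨fun _ => 0, fun h => absurd hb h⟩
    · obtain ⟨ω, h⟩ := frobV hw hAB (not_mem_dvd hb hX)
      exact ⟨ω, fun _ => h⟩
  choose ω hω using hex
  refine ⟨ω, fun v hv => (hω v hv).1, fun s => G (s - 1) * G' (s - 1), ?_, fun s hs => ?_, ?_⟩
  · exact (g1.comp (differentiable_id.sub_const 1)).mul (g1'.comp (differentiable_id.sub_const 1))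
  · have hs1 : (3 : ℝ) / 2 < (s - 1).re := by
      rw [Complex.sub_re, Complex.one_re]
      linarith
    refine (congrArg (fun g => HasProd g (G (s - 1) * G' (s - 1))) (funext fun v => ?_)).mp
      ((g3 _ hs1).mul (g3' _ hs1))
    by_cases hv : N ∈ v.asIdeal
    · rw [if_pos hv, if_pos hv, if_pos hv, one_mul]
    · rw [if_neg hv, if_neg hv, if_neg hv, Finset.prod_inv_distrib, (hω v hv).2 s, eul_eq, eul_eq,
        mul_inv]
  · have : (2 : ℂ) - 1 = 1 := by norm_num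
    simp only [this]
    exact mul_ne_zero g2 g2'

end Pool.Agent.N843.TT
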