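import Pool.Agent.N843.BB.Eig
import Pool.Agent.W165.CE.FF

/-!
# The pencils of quadrics over a ring with an element `w`, `w² = w - 2`
-/

set_option autoImplicit false
set_option linter.unusedSectionVars false

namespace Pool.Agent.N843.TT

open Finset Matrix Polynomial
open Pool.Agent.N844.QP (chi_sq sum_sq sum_lin sum_inv dp dp_eval dp_coeff dp_map count_sym qf qf_smul
  proj_card)
open scoped LinearAlgebra.Projectivization
open Pool.Agent.N843.BB (Ok dsc dsc_eval dsc_map dsc_coeff dsc_simple gg sum_gg SK SK_sq cub SK_luc)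

/-- the pencils of quadrics in `P⁵` with the given discriminant curve -/
structure IsPencil {R : Type*} [CommRing R] (w D D' m : R) (A B : Matrix (Fin 6) (Fin 6) R) : Prop where
  symA : A.IsSymm
  symB : B.IsSymm
  disc : ∀ x : R, -(x • A - B).det = (9 + 3 * w) * D * m ^ 2 * ((D * D' * x ^ 2 - 1) *
    (D * D' * x ^ 2 + w ^ 4) * (D * D' * x ^ 2 - w ^ 8))

section ring

variable {R : Type*} [CommRing R] [IsDomain R] [Infinite R] {w D D' m : R}
  {A B : Matrix (Fin 6) (Fin 6) R}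

lemma IsPencil.dp_eq (h : IsPencil w D D' m A B) :
    dp A B = dsc w ((9 + 3 * w) * D * m ^ 2) (D * D') := by
  apply Polynomial.funext
  intro x
  rw [dp_eval, dsc_eval]
  linear_combination - h.disc x

variable {k : Type*} [Field k] (φ : R →+* k)

lemma ok_map (hw : w ^ 2 = w - 2) (h2 : (2 : k) ≠ 0) (h3 : (3 : k) ≠ 0) (h7 : (7 : k) ≠ 0) :
    Ok (φ w) := by
  refine ⟨?_, h2, h3, h7⟩
  rw [← map_pow, hw, map_sub, map_ofNat]

lemma IsPencil.dpk (h : IsPencil w D D' m A B) :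
    dp (A.map φ) (B.map φ) = dsc (φ w) ((9 + 3 * φ w) * φ D * φ m ^ 2) (φ D * φ D') := by
  rw [dp_map, h.dp_eq, dsc_map]
  simp only [map_mul, map_add, map_pow, map_ofNat]

lemma IsPencil.detk (h : IsPencil w D D' m A B) :
    (A.map φ).det = -((9 + 3 * φ w) * φ D * φ m ^ 2) * (φ D * φ D') ^ 3 := by
  rw [← dp_coeff (A.map φ) (B.map φ), h.dpk φ, dsc_coeff]

lemma IsPencil.symk (h : IsPencil w D D' m A B) : (A.map φ).IsSymm ∧ (B.map φ).IsSymm :=
  ⟨h.symA.map _, h.symB.map _⟩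

variable {φ}

/-- smoothness -/
theorem IsPencil.smooth (h : IsPencil w D D' m A B) (hok : Ok (φ w)) (hn : φ D ≠ 0)
    (hn' : φ D' ≠ 0) (hm : φ m ≠ 0) {y : Fin 6 → k} (hy : y ≠ 0) (h6 : qf (A.map φ) y = 0)
    (h7 : qf (B.map φ) y = 0) :
    LinearIndependent k ![A.map φ *ᵥ y, B.map φ *ᵥ y] := by
  have hc : (9 + 3 * φ w) * φ D * φ m ^ 2 ≠ 0 :=
    mul_ne_zero (mul_ne_zero hok.c0 hn) (pow_ne_zero _ hm)
  have hd : φ D * φ D' ≠ 0 := mul_ne_zero hn hn'
  refine Pool.Agent.N844.QP.smooth (h.symk φ).1 (h.symk φ).2 ?_ ?_ hy h6 h7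
  · rw [h.detk φ]
    exact mul_ne_zero (neg_ne_zero.2 hc) (pow_ne_zero _ hd)
  · intro x hx
    rw [h.dpk φ] at hx ⊢
    exact dsc_simple hok hc hd x hx

/-- the number of points -/
theorem IsPencil.numP [Fintype k] [DecidableEq k] (h : IsPencil w D D' m A B) (hok : Ok (φ w))
    (hn : φ D ≠ 0) (hn' : φ D' ≠ 0) (hm : φ m ≠ 0) :
    (Pool.Agent.N844.QP.numP (A.map φ) (B.map φ) : ℤ) =
      1 + Fintype.card k + (Fintype.card k : ℤ) ^ 2 + (Fintype.card k : ℤ) ^ 3 +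
        Fintype.card k * (SK (φ D) + SK (φ D')) := by
  classical
  have hc : (9 + 3 * φ w) * φ D * φ m ^ 2 ≠ 0 :=
    mul_ne_zero (mul_ne_zero hok.c0 hn) (pow_ne_zero _ hm)
  have hd : φ D * φ D' ≠ 0 := mul_ne_zero hn hn'
  have hk : ringChar k ≠ 2 := by
    intro h0
    apply hok.h2
    have := ringChar.spec k 2
    rw [h0] at this
    exact_mod_cast this.2 dvd_rfl
  have hAB1 := h.dpk φ
  have hAB2 := h.detk φ
  have hsym := h.symk φ
  generalize A.map φ = Ak at hAB1 hAB2 hsym ⊢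
  generalize B.map φ = Bk at hAB1 hAB2 hsym ⊢
  have hA0 : Ak.det ≠ 0 := by
    rw [hAB2]
    exact mul_ne_zero (neg_ne_zero.2 hc) (pow_ne_zero _ hd)
  have hcount := count_sym hk 1 Ak Bk hsym.1 hsym.2 hA0 (by
    intro x hx
    rw [hAB1] at hx ⊢
    exact dsc_simple hok hc hd x hx)
  have hs : (∑ x : k, quadraticChar k ((-1) ^ (1 + 2) * (dp Ak Bk).eval x) +
      quadraticChar k ((-1) ^ (1 + 2) * Ak.det)) = SK (φ D) + SK (φ D') := by
    have e1 : ∀ x : k, quadraticChar k ((-1) ^ (1 + 2) * (dp Ak Bk).eval x) =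
        quadraticChar k ((9 + 3 * φ w) * φ D * gg (φ w) (φ D * φ D') x) := by
      intro x
      rw [hAB1, dsc_eval, ← chi_sq hm ((9 + 3 * φ w) * φ D * gg (φ w) (φ D * φ D') x)]
      congr 1
      unfold gg
      ring
    have e2 : quadraticChar k ((-1) ^ (1 + 2) * Ak.det) =
        quadraticChar k ((9 + 3 * φ w) * (φ D * (φ D * φ D'))) := by
      have hz : φ m * (φ D * φ D') ≠ 0 := mul_ne_zero hm hd
      rw [hAB2, ← chi_sq hz ((9 + 3 * φ w) * (φ D * (φ D * φ D')))]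
      congr 1
      ring
    simp_rw [e1]
    rw [e2, sum_gg hk hok hn hd]
    congr 1
    rw [show φ D * (φ D * φ D') = φ D ^ 2 * φ D' by ring, SK_sq hn]
  rw [hs] at hcount
  have e2 : ((univ.filter fun y : Fin 6 → k => qf Bk y = 0 ∧ qf Ak y = 0).card : ℤ) =
      (Nat.card {v : Fin 6 → k // v ≠ 0 ∧ (qf Ak v = 0 ∧ qf Bk v = 0)} : ℤ) + 1 := by
    have e4 : (univ.filter fun y : Fin 6 → k => qf Bk y = 0 ∧ qf Ak y = 0) =
        insert 0 (univ.filter fun y : Fin 6 → k => y ≠ 0 ∧ (qf Ak y = 0 ∧ qf Bk y = 0)) := by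
      ext y
      simp only [Finset.mem_filter, Finset.mem_univ, true_and, Finset.mem_insert]
      by_cases hy : y = 0
      · subst hy
        simp [qf]
      · simp [hy, and_comm]
    rw [e4, Finset.card_insert_of_notMem (by simp)]
    push_cast
    congr 2
    rw [Nat.card_eq_fintype_card, Fintype.card_subtype]
  have hcone : ∀ (c : kˣ) (v : Fin 6 → k), (qf Ak (c • v) = 0 ∧ qf Bk (c • v) = 0) ↔
      (qf Ak v = 0 ∧ qf Bk v = 0) := by
    intro c v
    rw [Units.smul_def, qf_smul, qf_smul]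
    have hc0 : (c : k) ^ 2 ≠ 0 := pow_ne_zero 2 c.ne_zero
    simp [hc0]
  have hcount' : ((univ.filter fun y : Fin 6 → k => qf Bk y = 0 ∧ qf Ak y = 0).card : ℤ) =
      (Fintype.card k : ℤ) ^ 4 + (Fintype.card k : ℤ) * ((Fintype.card k : ℤ) - 1) *
        (SK (φ D) + SK (φ D')) := by
    have := hcount
    rw [pow_one] at this
    exact this
  rw [e2, proj_card (k := k) (fun v => qf Ak v = 0 ∧ qf Bk v = 0) hcone] at hcount'
  have hq : 1 < Fintype.card k := Fintype.one_lt_card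
  have hq1 : ((Fintype.card k : ℤ) - 1) ≠ 0 := by
    have : (1 : ℤ) < Fintype.card k := by exact_mod_cast hq
    omega
  push_cast [Nat.cast_sub hq.le] at hcount'
  apply mul_left_cancel₀ hq1
  unfold Pool.Agent.N844.QP.numP
  linear_combination hcount'

end ring

/-! ### the eigenvalues of Frobenius over a finite field -/

section field

variable {F : Type} [Field F] [Fintype F] [DecidableEq F]

/-- the character sum and the points -/
lemma card_eq (hF : ringChar F ≠ 2) (D : F) :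
    (Fintype.card F : ℤ) - Nat.card {p : F × F // p.2 ^ 2 = p.1 ^ 3 - 35 * D ^ 2 * p.1 -
      98 * D ^ 3} = -SK D := by
  have h1 := Pool.Agent.H82R3.EK.card_points hF (fun x : F => x ^ 3 - 35 * D ^ 2 * x - 98 * D ^ 3)
  have h2 : ∑ x : F, quadraticChar F (x ^ 3 - 35 * D ^ 2 * x - 98 * D ^ 3) = SK D := by
    unfold SK
    rw [← sum_lin (fun t => quadraticChar F (cub D t)) one_ne_zero D]
    refine Finset.sum_congr rfl fun x _ => ?_
    congr 1
    unfold cub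
    ring
  rw [h2] at h1
  rw [h1]
  ring

/-- the eigenvalues of Frobenius -/
theorem eigen (hF : ringChar F ≠ 2) (D : F) :
    ∃ α β : ℂ, α + β = ((-SK D : ℤ) : ℂ) ∧ α * β = (Fintype.card F : ℂ) ∧
      ‖α‖ = Real.sqrt (Fintype.card F) ∧ ‖β‖ = Real.sqrt (Fintype.card F) := by
  have hH := W165.CE.hasse hF (-35 * D ^ 2) (-98 * D ^ 3)
  have e0 : Nat.card {x : F × F // x.2 ^ 2 = x.1 ^ 3 + -35 * D ^ 2 * x.1 + -98 * D ^ 3} =
      Nat.card {p : F × F // p.2 ^ 2 = p.1 ^ 3 - 35 * D ^ 2 * p.1 - 98 * D ^ 3} := by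
    refine Nat.card_congr (Equiv.subtypeEquivRight fun x => ?_)
    constructor
    · intro h
      linear_combination h
    · intro h
      linear_combination h
  rw [e0] at hH
  have hc := card_eq hF D
  obtain ⟨t, ht⟩ : ∃ t : ℤ, t = -SK D := ⟨_, rfl⟩
  obtain ⟨q, hq⟩ : ∃ q : ℕ, q = Fintype.card F := ⟨_, rfl⟩
  rw [← ht] at hc ⊢
  rw [← hq] at hc hH ⊢
  have hH2 : |(t : ℝ)| ≤ 2 * Real.sqrt q := by
    have := hH
    rw [← hc]
    push_cast
    exact this
  have hp0 : (0 : ℝ) ≤ q := Nat.cast_nonneg q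
  have hdisc : (t : ℝ) ^ 2 ≤ 4 * q := by
    have := sq_le_sq' (neg_le_of_abs_le hH2) (le_of_abs_le hH2)
    rw [mul_pow, Real.sq_sqrt hp0] at this
    linarith
  set s : ℝ := Real.sqrt (4 * q - (t : ℝ) ^ 2) with hs
  have hs2 : s ^ 2 = 4 * q - (t : ℝ) ^ 2 := Real.sq_sqrt (by linarith)
  have hnorm : ∀ e : ℝ, e ^ 2 = 1 →
      ‖((t : ℝ) / 2 : ℂ) + ((e * s / 2 : ℝ) : ℂ) * Complex.I‖ = Real.sqrt q := by
    intro e he
    have : (((t : ℝ) / 2 : ℂ)) = (((t : ℝ) / 2 : ℝ) : ℂ) := by push_cast; ring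
    rw [this, Complex.norm_add_mul_I]
    congr 1
    have : ((t : ℝ) / 2) ^ 2 + (e * s / 2) ^ 2 = ((t : ℝ) ^ 2 + e ^ 2 * s ^ 2) / 4 := by
      ring
    rw [this, he, hs2]
    ring
  refine ⟨((t : ℝ) / 2 : ℂ) + ((1 * s / 2 : ℝ) : ℂ) * Complex.I,
    ((t : ℝ) / 2 : ℂ) + ((-1 * s / 2 : ℝ) : ℂ) * Complex.I, ?_, ?_,
    hnorm 1 (by norm_num), hnorm (-1) (by norm_num)⟩
  · push_cast
    ring
  · have hI : Complex.I ^ 2 = -1 := Complex.I_sq
    have hs3 : (s : ℂ) ^ 2 = 4 * q - (t : ℂ) ^ 2 := by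
      have := congrArg (fun z : ℝ => (z : ℂ)) hs2
      push_cast at this
      exact this
    push_cast
    have : ((t : ℂ) / 2 + 1 * (s : ℂ) / 2 * Complex.I) *
        ((t : ℂ) / 2 + -1 * (s : ℂ) / 2 * Complex.I) =
        (t : ℂ) ^ 2 / 4 - (s : ℂ) ^ 2 / 4 * Complex.I ^ 2 := by ring
    rw [this, hI, hs3]
    ring

/-- the eigenvalues of Frobenius and the extensions -/
theorem eigen_ext (h2 : (2 : F) ≠ 0) (h7 : (7 : F) ≠ 0) {D : F} (hD : D ≠ 0) :
    ∃ α β : ℂ, α + β = ((-SK D : ℤ) : ℂ) ∧ α * β = (Fintype.card F : ℂ) ∧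
      ‖α‖ = Real.sqrt (Fintype.card F) ∧ ‖β‖ = Real.sqrt (Fintype.card F) ∧
      ∀ (k : Type) [Field k] [Fintype k] [DecidableEq k] [Algebra F k] (r : ℕ),
        Fintype.card k = Fintype.card F ^ r →
        ((SK (algebraMap F k D) : ℤ) : ℂ) = -(α ^ r + β ^ r) := by
  have hF : ringChar F ≠ 2 := by
    intro h0
    apply h2
    have := ringChar.spec F 2
    rw [h0] at this
    exact_mod_cast this.2 dvd_rfl
  obtain ⟨α, β, a1, a2, a3, a4⟩ := eigen hF D
  refine ⟨α, β, a1, a2, a3, a4, fun k _ _ _ _ r hr => ?_⟩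
  have hfr : Module.finrank F k = r := by
    have h6 := Module.card_eq_pow_finrank (K := F) (V := k)
    rw [hr] at h6
    exact (Nat.pow_right_injective Fintype.one_lt_card h6).symm
  rw [SK_luc h2 h7 hD, hfr]
  push_cast
  rw [Pool.Agent.H82R3.EK.luc_eq a1 (by rw [a2]; norm_cast)]

end field

end Pool.Agent.N843.TT
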